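import Pool.Agent.H56.Auto.Counter

set_option autoImplicit false

namespace Pool.Agent.Results.MP_0f8148_al.GeodesicCosetSpace

open Pool.Agent.H56.Auto

/-- There are a finite set `A` and a subgroup `H` of the free product `G` of `|A|` groups of order
two such that the set of all geodesic words of the right coset space `H \ G` is an automatic
structure for the cosets, every coset has exactly one geodesic word, and the coset space does not
embed coarsely into a real Hilbert space. -/
theorem result : ∃ (A : Type) (_ : Fintype A) (H : Subgroup (FreeInvolutions A)),
    IsAutomatic H letter (geodesics H letter) ∧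
    (∀ u ∈ geodesics H (letter (A := A)), ∀ v ∈ geodesics H (letter (A := A)),
      (u.map letter).prod * ((v.map letter).prod)⁻¹ ∈ H → u = v) ∧
    ¬ CoarselyEmbeds H :=
  ⟨Gen, inferInstance, HH, automatic, fun u hu v hv h => unique_rep u v hu hv h, not_embeds⟩

end Pool.Agent.Results.MP_0f8148_al.GeodesicCosetSpace
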